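import Pool.Agent.Y97.FD.Geo0
import Pool.Agent.W552.Main

/-!
# Contraction of algebraic classes, and the parity operators in coordinates
-/

set_option linter.unusedSectionVars false
set_option linter.unusedVariables false

open CategoryTheory AlgebraicGeometry Finset

universe u v

namespace Pool.Agent.Y333.FD

open Pool.Agent.H914 Pool.Agent.H914.VarClass Pool.Agent.H914.VarClass.Obj
  Pool.Agent.H914.WeilCohomology Pool.Agent.H281R3.HT Pool.Agent.W552 Pool.Agent.W539.Ker
  Pool.Agent.Y97 Pool.Agent.Y97.FD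

variable {k : Type u} [Field k] {𝒱 : VarClass k} {ops : CycleOps 𝒱}
  {W : WeilCohomology.{u, v} ops}

section Sum

variable {R M : Type*} [Fintype R] [AddCommMonoid M]

lemma sum_cons {n : ℕ} (F : (Fin (n + 1) → R) → M) :
    ∑ x, F x = ∑ i, ∑ y : Fin n → R, F (Fin.cons i y) := by
  rw [← (Fin.consEquiv (fun _ : Fin (n + 1) => R)).sum_comp, Fintype.sum_prod_type]
  rfl

lemma sum_cons2 {n : ℕ} (F : (Fin (n + 2) → R) → M) :
    ∑ x, F x = ∑ i, ∑ j, ∑ y : Fin n → R, F (Fin.cons i (Fin.cons j y)) := by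
  rw [sum_cons]
  refine Finset.sum_congr rfl fun i _ => ?_
  rw [sum_cons]

end Sum

section Geo

variable {X Y : 𝒱.Obj} {D : X.Cycles} {f : Module.End W.K (W.H X)}

/-- The diagonal. -/
noncomputable def dg2 (X : 𝒱.Obj) : X ⟶ X.prod X := Obj.lift (𝟙 X) (𝟙 X)

lemma map_dg2 (a a' : W.H X) : W.map (dg2 X) (ext W a a') = a * a' := by
  have e1 : dg2 X ≫ fst X X = 𝟙 X := Obj.lift_fst _ _
  have e2 : dg2 X ≫ snd X X = 𝟙 X := Obj.lift_snd _ _
  simp only [H281R3.HT.ext]
  rw [map_mul (W.map (dg2 X)), ← W.map_comp, ← W.map_comp, e1, e2, W.map_id, W.map_id]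

/-- The diagonal of the first factor. -/
noncomputable def dg3 (X Y : 𝒱.Obj) : X.prod Y ⟶ X.prod (X.prod Y) :=
  Obj.lift (fst X Y) (𝟙 (X.prod Y))

lemma map_dg3 (a : W.H X) (z : W.H (X.prod Y)) :
    W.map (dg3 X Y) (ext W a z) = W.map (fst X Y) a * z := by
  have e1 : dg3 X Y ≫ fst X (X.prod Y) = fst X Y := Obj.lift_fst _ _
  have e2 : dg3 X Y ≫ snd X (X.prod Y) = 𝟙 _ := Obj.lift_snd _ _
  simp only [H281R3.HT.ext]
  rw [map_mul (W.map (dg3 X Y)), ← W.map_comp, ← W.map_comp, e1, e2, W.map_id]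

/-- The contraction of the two first factors of `X × X`. -/
noncomputable def ctr2 (W : WeilCohomology.{u, v} ops) (X : 𝒱.Obj) (D : X.Cycles)
    (f : Module.End W.K (W.H X)) : W.H (X.prod X) →ₗ[W.K] W.K :=
  W.tr X ∘ₗ (W.map (dg2 X)).toLinearMap ∘ₗ extOp W (1 : Module.End W.K (W.H X)) (st W X D f)

lemma ctr2_ext (a a' : W.H X) : ctr2 W X D f (ext W a a') = bf W X D f a a' := by
  have h1 : extOp W (1 : Module.End W.K (W.H X)) (st W X D f) (ext W a a') =
      ext W a (st W X D f a') := extOp_tmul _ _ _ _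
  rw [ctr2, LinearMap.comp_apply, LinearMap.comp_apply, h1, AlgHom.toLinearMap_apply, map_dg2,
    bf_apply]

/-- The contraction of the two first factors of `X × (X × Y)`. -/
noncomputable def ctr3 (W : WeilCohomology.{u, v} ops) (X Y : 𝒱.Obj) (D : X.Cycles)
    (f : Module.End W.K (W.H X)) : W.H (X.prod (X.prod Y)) →ₗ[W.K] W.H Y :=
  W.push (snd X Y) ∘ₗ (W.map (dg3 X Y)).toLinearMap ∘ₗ
    extOp W (1 : Module.End W.K (W.H X))
      (extOp W (st W X D f) (1 : Module.End W.K (W.H Y)))

lemma ctr3_ext (a a' : W.H X) (y : W.H Y) :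
    ctr3 W X Y D f (ext W a (ext W a' y)) = bf W X D f a a' • y := by
  have h0 : extOp W (st W X D f) (1 : Module.End W.K (W.H Y)) (ext W a' y) =
      ext W (st W X D f a') y := extOp_tmul _ _ _ _
  have h1 : extOp W (1 : Module.End W.K (W.H X))
      (extOp W (st W X D f) (1 : Module.End W.K (W.H Y))) (ext W a (ext W a' y)) =
      ext W a (extOp W (st W X D f) (1 : Module.End W.K (W.H Y)) (ext W a' y)) :=
    extOp_tmul _ _ _ _
  rw [ctr3, LinearMap.comp_apply, LinearMap.comp_apply, h1, h0, AlgHom.toLinearMap_apply,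
    map_dg3]
  have h2 : W.map (fst X Y) a * ext W (st W X D f a') y =
      W.map (fst X Y) (a * st W X D f a') * W.map (snd X Y) y := by
    rw [map_mul (W.map (fst X Y)), mul_assoc]
    rfl
  rw [h2, W.push_snd, bf_apply]

end Geo

variable {P : Polarized 𝒱} {f : Module.End W.K (W.H P.X)}

/-- A linear form in coordinates. -/
lemma lin_sum (b : HB W P.X) (s : ℕ) (T : W.H (power ops P s).X →ₗ[W.K] W.K)
    (c : W.H (power ops P s).X) : T c = ∑ x, co b s c x * T (vec b s x) := by
  conv_lhs => rw [← sum_co b s c]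
  rw [map_sum]
  refine Finset.sum_congr rfl fun x _ => ?_
  rw [map_smul, smul_eq_mul]

/-- **The contraction of an algebraic tensor is algebraic.** -/
theorem a0_ctr (G : Gp W P.X P.D f) (b : HB W P.X) {n : ℕ} {g : (Fin (n + 2) → Fin b.N) → W.K}
    (hg : A0 b (n + 2) g) :
    A0 b n (fun I => ∑ i, ∑ j, Gm b f i j * g (Fin.cons i (Fin.cons j I))) := by
  obtain ⟨c, hc, rfl⟩ := hg
  have hst : AOp W P.X P.X (st W P.X P.D f) := st_aop G.fr G.pj
  rcases n with _ | s
  · have hc' : AS W (P.X.prod P.X) c := hc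
    have h1 : AS W (P.X.prod P.X)
        (extOp W (1 : Module.End W.K (W.H P.X)) (st W P.X P.D f) c) :=
      (AOp.one.ext hst).apply hc'
    obtain ⟨q, hq⟩ := (h1.map (dg2 P.X)).tr
    refine ⟨q, ?_⟩
    funext I
    rw [← hq]
    have h2 : W.tr P.X (W.map (dg2 P.X)
        (extOp W (1 : Module.End W.K (W.H P.X)) (st W P.X P.D f) c)) =
        ctr2 W P.X P.D f c := rfl
    rw [h2]
    have h3 : ctr2 W P.X P.D f c =
        ∑ x, co b 1 c x * ctr2 W P.X P.D f (vec b 1 x) := lin_sum b 1 (ctr2 W P.X P.D f) c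
    rw [h3, sum_cons2]
    refine Finset.sum_congr rfl fun i _ => Finset.sum_congr rfl fun j _ => ?_
    rw [Fintype.sum_unique]
    have h5 : ctr2 W P.X P.D f (vec b 1 (Fin.cons i (Fin.cons j default))) =
        bf W P.X P.D f (b.e i) (b.e j) := ctr2_ext _ _
    rw [h5, mul_comm]
    have h6 : I = default := Subsingleton.elim _ _
    rw [h6]
    rfl
  · have hc' : AS W (P.X.prod (P.X.prod (power ops P s).X)) c := hc
    have h1 : AS W (P.X.prod (P.X.prod (power ops P s).X))
        (extOp W (1 : Module.End W.K (W.H P.X))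
          (extOp W (st W P.X P.D f) (1 : Module.End W.K (W.H (power ops P s).X))) c) :=
      (AOp.one.ext (hst.ext AOp.one)).apply hc'
    refine ⟨ctr3 W P.X (power ops P s).X P.D f c,
      (h1.map (dg3 P.X (power ops P s).X)).push (snd P.X (power ops P s).X), ?_⟩
    funext I
    have h2 := co_map b (s + 2) s (ctr3 W P.X (power ops P s).X P.D f) c I
    refine Eq.trans ?_ h2.symm
    rw [sum_cons2]
    refine Finset.sum_congr rfl fun i _ => Finset.sum_congr rfl fun j _ => ?_
    have h3 : ∀ y : Fin (s + 1) → Fin b.N,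
        ctr3 W P.X (power ops P s).X P.D f (vec b (s + 2) (Fin.cons i (Fin.cons j y))) =
        bf W P.X P.D f (b.e i) (b.e j) • vec b s y := fun y => ctr3_ext _ _ _
    have h4 : ∀ y : Fin (s + 1) → Fin b.N,
        co b (s + 2) c (Fin.cons i (Fin.cons j y)) *
          co b s (ctr3 W P.X (power ops P s).X P.D f
            (vec b (s + 2) (Fin.cons i (Fin.cons j y)))) I =
        if y = I then Gm b f i j * co b (s + 2) c (Fin.cons i (Fin.cons j y)) else 0 := by
      intro y
      rw [h3 y, co_smul, Pi.smul_apply, co_vec, smul_eq_mul]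
      have h5 : Gm b f i j = bf W P.X P.D f (b.e i) (b.e j) := rfl
      rw [h5]
      split_ifs with h
      · ring
      · ring
    refine Eq.trans ?_ (Finset.sum_congr rfl fun y _ => (h4 y).symm)
    rw [Finset.sum_ite_eq' Finset.univ I, if_pos (Finset.mem_univ I)]

lemma par_gr {X : 𝒱.Obj} {i : ℕ} {a : W.H X} (ha : a ∈ W.gr X i) :
    par (W.isInternal X) a = (-1 : W.K) ^ i • a := by
  rw [par, scal_apply _ _ ha]

lemma sign_gpar (b : HB W P.X) (i : Fin b.N) :
    (-1 : W.K) ^ (b.dg i) = if gpar b i then (-1 : W.K) else 1 := by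
  rw [gpar]
  rcases Nat.even_or_odd (b.dg i) with h | h
  · rw [h.neg_one_pow, if_neg]
    rw [decide_eq_true_eq]
    have := Nat.even_iff.1 h
    omega
  · rw [h.neg_one_pow, if_pos]
    rw [decide_eq_true_eq]
    exact Nat.odd_iff.1 h

/-- **The parity operators of the factors are algebraic.** -/
theorem exists_pz (G : Gp W P.X P.D f) (b : HB W P.X) : ∀ (s : ℕ) (i : Fin (s + 1)),
    ∃ u : Module.End W.K (W.H (power ops P s).X), AOp W _ _ u ∧
      ∀ x, u (vec b s x) = (if gpar b (x i) then (-1 : W.K) else 1) • vec b s x := by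
  have hpar : AOp W P.X P.X (par (W.isInternal P.X)) := par_aop G.pj
  have hact : ∀ i, par (W.isInternal P.X) (b.e i) =
      (if gpar b i then (-1 : W.K) else 1) • b.e i := by
    intro i
    rw [par_gr (b.mem i), sign_gpar]
  intro s
  induction s with
  | zero =>
    intro i
    obtain rfl : i = 0 := Fin.fin_one_eq_zero i
    exact ⟨par (W.isInternal P.X), hpar, fun x => hact (x 0)⟩
  | succ s ih =>
    intro i
    refine Fin.cases ?_ (fun j => ?_) i
    · refine ⟨extOp W (par (W.isInternal P.X)) (1 : Module.End W.K (W.H (power ops P s).X)),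
        hpar.ext AOp.one, ?_⟩
      intro x
      rw [vec_succ]
      have h1 : extOp W (par (W.isInternal P.X)) (1 : Module.End W.K (W.H (power ops P s).X))
          (ext W (b.e (x 0)) (vec b s (fun i => x i.succ))) =
          ext W (par (W.isInternal P.X) (b.e (x 0))) (vec b s (fun i => x i.succ)) :=
        extOp_tmul _ _ _ _
      refine h1.trans ?_
      rw [hact]
      exact ext_smul_left _ _ _
    · obtain ⟨u, hu, hu'⟩ := ih j
      refine ⟨extOp W (1 : Module.End W.K (W.H P.X)) u, AOp.one.ext hu, ?_⟩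
      intro x
      rw [vec_succ]
      have h1 : extOp W (1 : Module.End W.K (W.H P.X)) u
          (ext W (b.e (x 0)) (vec b s (fun i => x i.succ))) =
          ext W (b.e (x 0)) (u (vec b s (fun i => x i.succ))) := extOp_tmul _ _ _ _
      refine h1.trans ?_
      rw [hu']
      exact ext_smul_right _ _ _

lemma vec_mem (b : HB W P.X) (s : ℕ) (x : Fin (s + 1) → Fin b.N) :
    vec b s x ∈ W.gr (power ops P s).X (∑ i, b.dg (x i)) := by
  induction s with
  | zero =>
    rw [Fin.sum_univ_one]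
    exact b.mem (x 0)
  | succ s ih =>
    rw [Fin.sum_univ_succ, vec_succ]
    exact W.mul_mem (W.map_mem _ (b.mem (x 0))) (W.map_mem _ (ih fun i => x i.succ))

lemma par_AS {X : 𝒱.Obj} {c : W.H X} (hc : AS W X c) : par (W.isInternal X) c = c := by
  refine AS.ind (p := fun c => par (W.isInternal X) c = c) ?_ ?_ hc
  · intro j x hx
    rw [par_gr (alg_gr hx), pow_mul]
    simp
  · intro x y hx hy
    rw [map_add, hx, hy]

/-- **Algebraic tensors are even.** -/
theorem a0_even (G : Gp W P.X P.D f) (b : HB W P.X) {n : ℕ} {g : (Fin n → Fin b.N) → W.K}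
    (hg : A0 b n g) (I : Fin n → Fin b.N) :
    (∏ s, (if gpar b (I s) then (-1 : W.K) else 1)) * g I = g I := by
  rcases n with _ | s
  · simp
  obtain ⟨c, hc, rfl⟩ := hg
  have h1 := co_map b s s (par (W.isInternal (power ops P s).X)) c I
  rw [par_AS hc] at h1
  have h2 : ∀ x, par (W.isInternal (power ops P s).X) (vec b s x) =
      (∏ t, (if gpar b (x t) then (-1 : W.K) else 1)) • vec b s x := by
    intro x
    rw [par_gr (vec_mem b s x), ← Finset.prod_pow_eq_pow_sum]
    congr 1
    exact Finset.prod_congr rfl fun t _ => sign_gpar b (x t)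
  have h3 : ∀ x, co b s c x * co b s (par (W.isInternal (power ops P s).X) (vec b s x)) I =
      if x = I then (∏ t, (if gpar b (x t) then (-1 : W.K) else 1)) * co b s c x else 0 := by
    intro x
    rw [h2, co_smul, Pi.smul_apply, co_vec, smul_eq_mul]
    split_ifs with h
    · ring
    · ring
  rw [Finset.sum_congr rfl fun x _ => h3 x, Finset.sum_ite_eq' Finset.univ I,
    if_pos (Finset.mem_univ I)] at h1
  exact h1.symm

end Pool.Agent.Y333.FD

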